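import Mathlib

open Set Topology

namespace Pool.Agent.MP_4716e9_gt

universe u

/-- Bing's space H over the index set `I`. -/
def Bing (I : Type u) : Type u := I ⊕ ((Set I → Prop) × ℕ)

namespace Bing

variable {I : Type u}

/-- the non-isolated points -/
def pt (a : I) : Bing I := Sum.inl a
/-- the isolated points -/
def iso (f : Set I → Prop) (m : ℕ) : Bing I := Sum.inr (f, m)

theorem pt_inj {a b : I} (h : pt a = pt b) : a = b := Sum.inl_injective h
theorem pt_ne_iso (a : I) (f : Set I → Prop) (m : ℕ) : pt a ≠ iso f m := Sum.inl_ne_inr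
theorem iso_inj {f g : Set I → Prop} {m n : ℕ} (h : iso f m = iso g n) : f = g ∧ m = n :=
  Prod.mk.inj (Sum.inr_injective h)

theorem cases_on (y : Bing I) : (∃ a, y = pt a) ∨ ∃ f m, y = iso f m := by
  rcases y with a | ⟨f, m⟩
  · exact Or.inl ⟨a, rfl⟩
  · exact Or.inr ⟨f, m, rfl⟩

instance : TopologicalSpace (Bing I) where
  IsOpen W := ∀ a : I, pt a ∈ W → ∃ (S : Set (Set I)) (n : ℕ), S.Finite ∧
    ∀ f m, (∀ T ∈ S, (f T ↔ a ∈ T)) → n ≤ m → iso f m ∈ W
  isOpen_univ := fun _ _ => ⟨∅, 0, finite_empty, fun _ _ _ _ => mem_univ _⟩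
  isOpen_inter := by
    intro s t hs ht a ha
    obtain ⟨S, n, hS, h1⟩ := hs a ha.1
    obtain ⟨S', n', hS', h2⟩ := ht a ha.2
    refine ⟨S ∪ S', max n n', hS.union hS', fun f m hf hm => ⟨?_, ?_⟩⟩
    · exact h1 f m (fun T hT => hf T (Or.inl hT)) ((le_max_left _ _).trans hm)
    · exact h2 f m (fun T hT => hf T (Or.inr hT)) ((le_max_right _ _).trans hm)
  isOpen_sUnion := by
    intro s hs a ha
    obtain ⟨t, ht, hat⟩ := ha
    obtain ⟨S, n, hS, h1⟩ := hs t ht a hat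
    exact ⟨S, n, hS, fun f m hf hm => ⟨t, ht, h1 f m hf hm⟩⟩

theorem isOpen_iff {W : Set (Bing I)} : IsOpen W ↔ ∀ a : I, pt a ∈ W →
    ∃ (S : Set (Set I)) (n : ℕ), S.Finite ∧
      ∀ f m, (∀ T ∈ S, (f T ↔ a ∈ T)) → n ≤ m → iso f m ∈ W := Iff.rfl

theorem isOpen_of_iso {W : Set (Bing I)} (n : ℕ) (h : ∀ f m, n ≤ m → iso f m ∈ W) : IsOpen W :=
  isOpen_iff.2 fun _ _ => ⟨∅, n, finite_empty, fun f m _ hm => h f m hm⟩

theorem isOpen_of_no_pt {W : Set (Bing I)} (h : ∀ a, pt a ∉ W) : IsOpen W :=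
  isOpen_iff.2 fun a ha => (h a ha).elim

instance : T1Space (Bing I) where
  t1 y := by
    rw [← isOpen_compl_iff]
    rcases cases_on y with ⟨a, rfl⟩ | ⟨f, m, rfl⟩
    · exact isOpen_of_iso 0 fun f m _ h => pt_ne_iso a f m (mem_singleton_iff.1 h).symm
    · refine isOpen_of_iso (m + 1) fun g k hk h => ?_
      have := (iso_inj (mem_singleton_iff.1 h)).2
      omega

theorem half {s t : Set (Bing I)} (ht : IsClosed t) (hd : Disjoint s t) (T : Set I)
    (c : Prop) (hT : ∀ a, pt a ∈ s → (a ∈ T ↔ c)) :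
    IsOpen (s ∪ {y | y ∉ t ∧ ∃ f m, y = iso f m ∧ (f T ↔ c)}) := by
  refine isOpen_iff.2 fun a ha => ?_
  have has : pt a ∈ s := by
    rcases ha with ha | ⟨-, f, m, h, -⟩
    · exact ha
    · exact (pt_ne_iso a f m h).elim
  have hat : pt a ∈ tᶜ := fun h => disjoint_left.1 hd has h
  obtain ⟨S, n, hS, h1⟩ := isOpen_iff.1 ht.isOpen_compl a hat
  refine ⟨insert T S, n, hS.insert T, fun f m hf hm => Or.inr ⟨?_, f, m, rfl, ?_⟩⟩
  · exact h1 f m (fun T' hT' => hf T' (Or.inr hT')) hm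
  · exact (hf T (Or.inl rfl)).trans (hT a has)

instance : NormalSpace (Bing I) where
  normal s t hs ht hd := by
    refine ⟨_, _, half ht hd {a | pt a ∈ s} True (fun a ha => by simpa using ha),
      half hs hd.symm {a | pt a ∈ s} False
        (fun a ha => by simpa using fun h => disjoint_left.1 hd h ha),
      subset_union_left, subset_union_left, ?_⟩
    rw [disjoint_left]
    rintro y (hy | ⟨hy, f, m, rfl, hf⟩) (hy' | ⟨hy', g, k, e, hg⟩)
    · exact disjoint_left.1 hd hy hy'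
    · exact hy' hy
    · exact hy hy'
    · obtain ⟨rfl, -⟩ := iso_inj e
      exact hg.1 (hf.2 trivial)

instance : PerfectlyNormalSpace (Bing I) where
  closed_gdelta s _ := by
    have : s = ⋂ n : ℕ, (s ∪ {y | ∃ f m, n ≤ m ∧ y = iso f m}) := by
      ext y
      simp only [mem_iInter, mem_union, mem_ofPred_eq]
      refine ⟨fun h _ => Or.inl h, fun h => ?_⟩
      rcases cases_on y with ⟨a, rfl⟩ | ⟨f, m, rfl⟩
      · rcases h 0 with h | ⟨f, m, -, h⟩
        · exact h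
        · exact (pt_ne_iso a f m h).elim
      · rcases h (m + 1) with h | ⟨g, k, hk, h⟩
        · exact h
        · have := (iso_inj h).2
          omega
    rw [this]
    exact IsGδ.iInter_of_isOpen fun n => isOpen_of_iso n fun f m hm => Or.inr ⟨f, m, hm, rfl⟩

instance : T6Space (Bing I) where

/-- What normality of `X × Bing I` gives for a family of pointed open sets indexed by `I`. -/
theorem key {X : Type u} [TopologicalSpace X] [T1Space X] (x : I → X) (O : I → Set X)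
    (hO : ∀ a, IsOpen (O a)) (hx : ∀ a, x a ∈ O a) [NormalSpace (X × Bing I)] :
    ∃ (N : I → Set X) (S : I → Set (Set I)), (∀ a, N a ∈ 𝓝 (x a)) ∧ (∀ a, (S a).Finite) ∧
      ∀ y b, y ∉ O b → ∃ M ∈ 𝓝 y, ∃ S' : Set (Set I), S'.Finite ∧
        ∀ a, (N a ∩ M).Nonempty → ∃ T ∈ S a, T ∈ S' ∧ ¬ (a ∈ T ↔ b ∈ T) := by
  classical
  have cl : ∀ C : I → Set X, (∀ a, IsClosed (C a)) →
      IsClosed {p : X × Bing I | ∃ a, p.2 = pt a ∧ p.1 ∈ C a} := by
    intro C hC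
    rw [← isOpen_compl_iff, isOpen_prod_iff]
    intro z y hzy
    rcases cases_on y with ⟨a, rfl⟩ | ⟨f, m, rfl⟩
    · refine ⟨(C a)ᶜ, {y | ∀ b, y = pt b → b = a}, (hC a).isOpen_compl,
        isOpen_of_iso 0 fun f m _ b hb => (pt_ne_iso b f m hb.symm).elim,
        fun h => hzy ⟨a, rfl, h⟩, fun b hb => (pt_inj hb).symm, ?_⟩
      rintro ⟨z', y'⟩ ⟨h1, h2⟩ ⟨b, hb, hz⟩
      obtain rfl := h2 b hb
      exact h1 hz
    · refine ⟨univ, {y | ∀ b, y ≠ pt b}, isOpen_univ, isOpen_of_no_pt fun b hb => hb b rfl,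
        mem_univ _, fun b hb => pt_ne_iso b f m hb.symm, ?_⟩
      rintro ⟨z', y'⟩ ⟨-, h2⟩ ⟨b, hb, -⟩
      exact h2 b hb
  obtain ⟨U, V, hU, hV, hAU, hBV, hUV⟩ := NormalSpace.normal _ _
    (cl (fun a => {x a}) fun _ => isClosed_singleton)
    (cl (fun a => (O a)ᶜ) fun a => (hO a).isClosed_compl) (by
      rw [disjoint_left]
      rintro p ⟨a, ha, h1⟩ ⟨b, hb, h2⟩
      obtain rfl : a = b := pt_inj (ha.symm.trans hb)
      exact h2 (by rw [mem_singleton_iff.1 h1]; exact hx a))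
  have box : ∀ W : Set (X × Bing I), IsOpen W → ∀ z a, (z, pt a) ∈ W → ∃ M ∈ 𝓝 z,
      ∃ (S : Set (Set I)) (n : ℕ), S.Finite ∧ ∀ w ∈ M, ∀ f m, (∀ T ∈ S, (f T ↔ a ∈ T)) →
        n ≤ m → (w, iso f m) ∈ W := by
    intro W hW z a hz
    obtain ⟨M, G, hM, hG, h1, h2, h3⟩ := isOpen_prod_iff.1 hW z (pt a) hz
    obtain ⟨S, n, hS, h4⟩ := isOpen_iff.1 hG a h2
    exact ⟨M, hM.mem_nhds h1, S, n, hS, fun w hw f m hf hm => h3 ⟨hw, h4 f m hf hm⟩⟩
  choose N hN S n hS hbox using fun a => box U hU (x a) a (hAU ⟨a, rfl, rfl⟩)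
  refine ⟨N, S, hN, hS, fun y b hy => ?_⟩
  obtain ⟨M, hM, S', n', hS', hbox'⟩ := box V hV y b (hBV ⟨b, rfl, hy⟩)
  refine ⟨M, hM, S', hS', ?_⟩
  rintro a ⟨w, hw1, hw2⟩
  by_contra hcon
  push Not at hcon
  refine disjoint_left.1 hUV
    (hbox a w hw1 (fun T => if T ∈ S a then a ∈ T else b ∈ T) (max (n a) n')
      (fun T hT => by simp [hT]) (le_max_left _ _))
    (hbox' w hw2 _ _ (fun T hT => ?_) (le_max_right _ _))
  by_cases h : T ∈ S a
  · simp only [h, if_true]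
    exact hcon T h hT
  · simp [h]

end Bing

end Pool.Agent.MP_4716e9_gt
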