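import Mathlib

open Set Topology

namespace Pool.Agent.MP_4716e9_gt

universe u

/-- Borges' definition of a stratifiable space: every open set `U` is, monotonically in `U`,
the union of a sequence of open sets whose closures lie in `U`. -/
def Stratifiable (X : Type u) [TopologicalSpace X] : Prop :=
  ∃ S : Set X → ℕ → Set X,
    (∀ U n, IsOpen U → IsOpen (S U n) ∧ closure (S U n) ⊆ U) ∧
    (∀ U, IsOpen U → (⋃ n, S U n) = U) ∧
    (∀ U V n, IsOpen U → IsOpen V → U ⊆ V → S U n ⊆ S V n)

/-- There is a sequence of point-finite families of (arbitrary) subsets of `X` such that every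
open set containing a point `x` contains a finite union of members of the families which is a
neighbourhood of `x`. -/
def PointFiniteUnions (X : Type u) [TopologicalSpace X] : Prop :=
  ∃ B : ℕ → Set (Set X),
    (∀ n x, {b | b ∈ B n ∧ x ∈ b}.Finite) ∧
    ∀ x U, IsOpen U → x ∈ U →
      ∃ F : Set (Set X), F.Finite ∧ F ⊆ (⋃ n, B n) ∧ ⋃₀ F ∈ 𝓝 x ∧ ⋃₀ F ⊆ U

end Pool.Agent.MP_4716e9_gt
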