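import Pool.Agent.MP_4716e9_gt.Defs
import Pool.Agent.MP_4716e9_gt.Bing

open Set Topology

namespace Pool.Agent.MP_4716e9_gt

universe u v

/-- The working form of the internal condition. -/
def Core (X : Type u) [TopologicalSpace X] : Prop :=
  ∃ (N : ℕ → X → Set X) (B : ℕ → Set (Set X)), (∀ n x, N n x ∈ 𝓝 x) ∧
    (∀ n x, {b | b ∈ B n ∧ x ∈ b}.Finite) ∧
    ∀ x U, IsOpen U → x ∈ U → ∃ n, ∃ M ∈ 𝓝 x, ∃ F : Set (Set X), F.Finite ∧ F ⊆ B n ∧
      ⋃₀ F ⊆ U ∧ ∀ z, (N n z ∩ M).Nonempty → z ∈ ⋃₀ F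

variable {X : Type u} [TopologicalSpace X]

/-- The counting step: induction on the number of coordinates. -/
theorem roots {I : Type u} (O N : I → Set X) (s : I → Finset (Set I × Prop))
    (h : ∀ y b, y ∉ O b → ∃ M ∈ 𝓝 y, ∃ S' : Set (Set I), S'.Finite ∧
      ∀ a, (N a ∩ M).Nonempty → ∃ T ∈ S', (T, ¬ b ∈ T) ∈ s a) (n : ℕ) (y : X) :
    ∀ (k : ℕ) (r : Finset (Set I × Prop)), n < r.card + k →
      ∃ M ∈ 𝓝 y, ∃ R : Set (Finset (Set I × Prop)), R.Finite ∧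
        (∀ r' ∈ R, ∀ b, (∀ p ∈ r', (p.2 ↔ b ∈ p.1)) → y ∈ O b) ∧
        ∀ a, (s a).card ≤ n → r ⊆ s a → (N a ∩ M).Nonempty → ∃ r' ∈ R, r' ⊆ s a := by
  classical
  intro k
  induction k with
  | zero =>
    intro r hr
    refine ⟨univ, Filter.univ_mem, ∅, finite_empty, by simp, fun a ha hra _ => ?_⟩
    have := Finset.card_le_card hra
    omega
  | succ k ih =>
    intro r hr
    by_cases hy : ∀ b, (∀ p ∈ r, (p.2 ↔ b ∈ p.1)) → y ∈ O b
    · refine ⟨univ, Filter.univ_mem, {r}, finite_singleton r, ?_, fun a _ hra _ => ⟨r, rfl, hra⟩⟩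
      rintro r' rfl
      exact hy
    · push Not at hy
      obtain ⟨b, hb, hyb⟩ := hy
      obtain ⟨M, hM, S', hS', h1⟩ := h y b hyb
      have hnot : ∀ T, (T, ¬ b ∈ T) ∉ r := fun T hT => by
        have := hb _ hT
        tauto
      choose M' hM' R hR h2 h3 using fun T => ih (insert (T, ¬ b ∈ T) r) (by
        rw [Finset.card_insert_of_notMem (hnot T)]; omega)
      refine ⟨M ∩ ⋂ T ∈ S', M' T, Filter.inter_mem hM
        ((Filter.biInter_mem hS').2 fun T _ => hM' T), ⋃ T ∈ S', R T,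
        hS'.biUnion fun T _ => hR T, ?_, ?_⟩
      · intro r' hr'
        obtain ⟨T, -, hT⟩ := mem_iUnion₂.1 hr'
        exact h2 T r' hT
      · rintro a ha hra ⟨w, hw1, hw2, hw3⟩
        obtain ⟨T, hT, hTa⟩ := h1 a ⟨w, hw1, hw2⟩
        obtain ⟨r', hr', h4⟩ := h3 T a ha (Finset.insert_subset hTa hra)
          ⟨w, hw1, mem_iInter₂.1 hw3 T hT⟩
        exact ⟨r', mem_iUnion₂.2 ⟨T, hT, hr'⟩, h4⟩

/-- Pointed open sets. -/
def Pointed (X : Type u) [TopologicalSpace X] : Type u :=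
  {p : X × Set X // IsOpen p.2 ∧ p.1 ∈ p.2}

theorem core_of_bing [T1Space X] [NormalSpace (X × Bing (Pointed X))] : Core X := by
  classical
  obtain ⟨N, S, hN, hS, h⟩ := Bing.key (fun a : Pointed X => a.1.1) (fun a => a.1.2)
    (fun a => a.2.1) (fun a => a.2.2)
  let s : Pointed X → Finset (Set (Pointed X) × Prop) :=
    fun a => (hS a).toFinset.image fun T => (T, a ∈ T)
  have hs : ∀ a, ∀ p ∈ s a, (p.2 ↔ a ∈ p.1) := by
    intro a p hp
    obtain ⟨T, -, rfl⟩ := Finset.mem_image.1 hp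
    exact Iff.rfl
  have H := fun n y => roots (fun a : Pointed X => a.1.2) N s (fun y b hy => by
    obtain ⟨M, hM, S', hS', h1⟩ := h y b hy
    refine ⟨M, hM, S', hS', fun a ha => ?_⟩
    obtain ⟨T, hT, hT', h2⟩ := h1 a ha
    refine ⟨T, hT', Finset.mem_image.2 ⟨T, (hS a).mem_toFinset.2 hT, ?_⟩⟩
    congr 1
    exact propext (by tauto)) n y (n + 1) ∅ (by simp)
  choose M hM R hR h2 h3 using H
  refine ⟨M, fun n => range fun r => {y | r ∈ R n y}, hM, fun n x => ?_, fun x U hU hx => ?_⟩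
  · refine ((hR n x).image fun r => {y | r ∈ R n y}).subset ?_
    rintro b ⟨⟨r, rfl⟩, hr⟩
    exact ⟨r, hr, rfl⟩
  · let a : Pointed X := ⟨(x, U), hU, hx⟩
    refine ⟨(s a).card, N a, hN a, (fun r => {y | r ∈ R (s a).card y}) '' {r | r ⊆ s a},
      Finite.image _ ?_, image_subset_range _ _, ?_, ?_⟩
    · exact (s a).powerset.finite_toSet.subset fun r hr => by simpa using hr
    · rintro y ⟨b, ⟨r, hr, rfl⟩, hy⟩
      exact h2 _ y r hy a fun p hp => hs a p (hr hp)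
    · intro z hz
      obtain ⟨r, hr, h4⟩ := h3 _ z a le_rfl (Finset.empty_subset _) (by rwa [inter_comm] at hz)
      exact ⟨_, ⟨r, h4, rfl⟩, hr⟩

theorem Core.stratifiable (h : Core X) : Stratifiable X := by
  obtain ⟨N, B, hN, -, h⟩ := h
  have cl : ∀ (U : Set X) n, closure (closure (⋃ z ∈ Uᶜ, N n z))ᶜ ⊆ U := by
    intro U n z hz
    by_contra hzU
    obtain ⟨w, hw1, hw2⟩ := mem_closure_iff_nhds.1 hz _ (hN n z)
    exact hw2 (subset_closure (mem_iUnion₂.2 ⟨z, hzU, hw1⟩))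
  refine ⟨fun U n => (closure (⋃ z ∈ Uᶜ, N n z))ᶜ,
    fun U n _ => ⟨isClosed_closure.isOpen_compl, cl U n⟩, fun U hU => ?_, fun U V n _ _ hUV => ?_⟩
  · refine Subset.antisymm (iUnion_subset fun n => subset_closure.trans (cl U n)) fun x hx => ?_
    obtain ⟨n, M, hM, F, -, -, h1, h2⟩ := h x U hU hx
    refine mem_iUnion.2 ⟨n, fun hc => ?_⟩
    obtain ⟨w, hw1, hw2⟩ := mem_closure_iff_nhds.1 hc _ hM
    obtain ⟨z, hz, hw⟩ := mem_iUnion₂.1 hw2
    exact hz (h1 (h2 z ⟨w, hw, hw1⟩))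
  · exact compl_subset_compl.2 (closure_mono (biUnion_subset_biUnion_left
      (compl_subset_compl.2 hUV)))

theorem Core.pointFinite (h : Core X) : PointFiniteUnions X := by
  obtain ⟨N, B, hN, hB, h⟩ := h
  refine ⟨B, hB, fun x U hU hx => ?_⟩
  obtain ⟨n, M, hM, F, h1, h2, h3, h4⟩ := h x U hU hx
  exact ⟨F, h1, h2.trans (subset_iUnion B n),
    Filter.mem_of_superset hM fun z hz => h4 z ⟨z, mem_of_mem_nhds (hN n z), hz⟩, h3⟩

theorem core_of [T1Space X] (h1 : Stratifiable X) (h2 : PointFiniteUnions X) : Core X := by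
  obtain ⟨S, hS1, hS2, hS3⟩ := h1
  obtain ⟨B, hB, h⟩ := h2
  refine ⟨fun n z => ⋂ j ∈ Iic n, (closure (S {z}ᶜ j))ᶜ, fun n => ⋃ j ∈ Iic n, B j,
    fun n z => ?_, fun n x => ?_, fun x U hU hx => ?_⟩
  · refine (Filter.biInter_mem (finite_Iic n)).2 fun j _ => ?_
    exact isClosed_closure.isOpen_compl.mem_nhds
      fun hz => (hS1 _ j isOpen_compl_singleton).2 hz rfl
  · refine ((finite_Iic n).biUnion fun j _ => hB j x).subset ?_
    rintro b ⟨hb, hx⟩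
    obtain ⟨j, hj, hb⟩ := mem_iUnion₂.1 hb
    exact mem_iUnion₂.2 ⟨j, hj, hb, hx⟩
  · obtain ⟨F, h1, h2, h3, h4⟩ := h x U hU hx
    have hx' : x ∈ ⋃ n, S (interior (⋃₀ F)) n := by
      rw [hS2 _ isOpen_interior]; exact mem_interior_iff_mem_nhds.2 h3
    obtain ⟨j, hj⟩ := mem_iUnion.1 hx'
    choose! l hl using fun b (hb : b ∈ F) => mem_iUnion.1 (h2 hb)
    obtain ⟨n, hn⟩ := (h1.image l).bddAbove
    refine ⟨max n j, S (interior (⋃₀ F)) j, (hS1 _ j isOpen_interior).1.mem_nhds hj, F, h1,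
      fun b hb => mem_iUnion₂.2 ⟨l b, (hn ⟨b, hb, rfl⟩).trans (le_max_left _ _), hl b hb⟩, h4, ?_⟩
    rintro z ⟨w, hw1, hw2⟩
    by_contra hz
    refine mem_iInter₂.1 hw1 j (le_max_right n j) (subset_closure
      (hS3 _ _ j isOpen_interior isOpen_compl_singleton (fun t ht e => hz ?_) hw2))
    rw [← mem_singleton_iff.1 e]
    exact interior_subset ht

theorem exhaust {Y : Type v} [TopologicalSpace Y] [PerfectlyNormalSpace Y] (G : Set Y)
    (hG : IsOpen G) : ∃ g : ℕ → Set Y, Monotone g ∧ G ⊆ ⋃ m, g m ∧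
      ∀ m, IsOpen (g m) ∧ closure (g m) ⊆ G := by
  obtain ⟨u, h1, h2⟩ := Disjoint.hasSeparatingCover_closed_gdelta_right (s := G) (t := Gᶜ)
    disjoint_compl_right hG.isClosed_compl hG.isClosed_compl.isGδ
  refine ⟨fun m => ⋃ j ∈ Iic m, u j,
    fun m m' hm => biUnion_subset_biUnion_left (Iic_subset_Iic.2 hm), fun y hy => ?_,
    fun m => ⟨isOpen_biUnion fun j _ => (h2 j).1, ?_⟩⟩
  · obtain ⟨j, hj⟩ := mem_iUnion.1 (h1 hy)
    exact mem_iUnion.2 ⟨j, mem_iUnion₂.2 ⟨j, mem_Iic.2 le_rfl, hj⟩⟩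
  · rw [(finite_Iic m).closure_biUnion]
    exact iUnion₂_subset fun j _ => disjoint_compl_right_iff_subset.1 (h2 j).2

theorem Core.cover (h : Core X) {Y : Type v} [TopologicalSpace Y] [PerfectlyNormalSpace Y]
    (W : Set (X × Y)) (hW : IsOpen W) :
    ∃ u : ℕ → Set (X × Y), W ⊆ ⋃ m, u m ∧ ∀ m, IsOpen (u m) ∧ closure (u m) ⊆ W := by
  obtain ⟨N, B, hN, hB, h⟩ := h
  choose g hg1 hg2 hg3 using
    fun b : Set X => exhaust (interior {y : Y | ∀ x ∈ b, (x, y) ∈ W}) isOpen_interior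
  refine ⟨fun m => interior {p | ∃ n ≤ m, ∀ z, p.1 ∈ N n z → ∃ b ∈ B n, z ∈ b ∧ p.2 ∈ g b m},
    ?_, fun m => ⟨isOpen_interior, ?_⟩⟩
  · rintro ⟨x, y⟩ hxy
    obtain ⟨U, G, hU, hG, hx, hy, hUG⟩ := isOpen_prod_iff.1 hW x y hxy
    obtain ⟨n, M, hM, F, h1, h2, h3, h4⟩ := h x U hU hx
    have hyb : ∀ b ∈ F, ∃ m, y ∈ g b m := fun b hb => mem_iUnion.1 (hg2 b
      (interior_maximal (t := G) (s := {y : Y | ∀ x ∈ b, (x, y) ∈ W})
        (fun y' hy' x' hx' => hUG (mk_mem_prod (h3 ⟨b, hb, hx'⟩) hy')) hG hy))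
    choose! l hl using hyb
    obtain ⟨k, hk⟩ := (h1.image l).bddAbove
    refine mem_iUnion.2 ⟨max n k, mem_interior_iff_mem_nhds.2 (Filter.mem_of_superset
      (prod_mem_nhds hM ((Filter.biInter_mem h1).2 fun b hb => (hg3 b (max n k)).1.mem_nhds
        (hg1 b ((hk ⟨b, hb, rfl⟩).trans (le_max_right n k)) (hl b hb)))) ?_)⟩
    rintro ⟨x', y'⟩ ⟨hx', hy'⟩
    refine ⟨n, le_max_left _ _, fun z hz => ?_⟩
    obtain ⟨b, hb, hzb⟩ := h4 z ⟨x', hz, hx'⟩
    exact ⟨b, h2 hb, hzb, mem_iInter₂.1 hy' b hb⟩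
  · rintro ⟨z, y⟩ hzy
    by_contra hcon
    have fin : (⋃ n ∈ Iic m, {b | b ∈ B n ∧ z ∈ b}).Finite :=
      (finite_Iic m).biUnion fun n _ => hB n z
    obtain ⟨⟨x', y'⟩, ⟨hx', hy'⟩, hp⟩ := mem_closure_iff_nhds.1 hzy _ (prod_mem_nhds
      ((Filter.biInter_mem (finite_Iic m)).2 fun n _ => hN n z)
      ((Filter.biInter_mem fin).2 fun b hb =>
        (isClosed_closure (s := g b m)).isOpen_compl.mem_nhds fun hy => by
          obtain ⟨n, -, -, hzb⟩ := mem_iUnion₂.1 hb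
          exact hcon (interior_subset ((hg3 b m).2 hy) z hzb)))
    obtain ⟨n, hn, h1⟩ := interior_subset hp
    obtain ⟨b, hb, hzb, h2⟩ := h1 z (mem_iInter₂.1 hx' n hn)
    exact mem_iInter₂.1 hy' b (mem_iUnion₂.2 ⟨n, hn, hb, hzb⟩) (subset_closure h2)

theorem perfectlyNormal_of_cover {Z : Type v} [TopologicalSpace Z]
    (h : ∀ W : Set Z, IsOpen W →
      ∃ u : ℕ → Set Z, W ⊆ ⋃ m, u m ∧ ∀ m, IsOpen (u m) ∧ closure (u m) ⊆ W) :
    PerfectlyNormalSpace Z := by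
  have sep : ∀ s t : Set Z, IsClosed t → Disjoint s t → HasSeparatingCover s t := by
    intro s t ht hd
    obtain ⟨u, h1, h2⟩ := h tᶜ ht.isOpen_compl
    exact ⟨u, hd.subset_compl_right.trans h1,
      fun n => ⟨(h2 n).1, subset_compl_iff_disjoint_right.1 (h2 n).2⟩⟩
  refine { normal := fun s t hs ht hd => hasSeparatingCovers_iff_separatedNhds.1
              ⟨sep s t ht hd, sep t s hs hd.symm⟩, closed_gdelta := fun s hs => ?_ }
  obtain ⟨u, h1, h2⟩ := h sᶜ hs.isOpen_compl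
  have : s = ⋂ m, (closure (u m))ᶜ := by
    refine Subset.antisymm (subset_iInter fun m x hx hc => (h2 m).2 hc hx) fun x hx => ?_
    by_contra hxs
    obtain ⟨m, hm⟩ := mem_iUnion.1 (h1 hxs)
    exact mem_iInter.1 hx m (subset_closure hm)
  rw [this]
  exact IsGδ.iInter_of_isOpen fun m => isClosed_closure.isOpen_compl

theorem Core.perfectlyNormal (h : Core X) (Y : Type v) [TopologicalSpace Y]
    [PerfectlyNormalSpace Y] : PerfectlyNormalSpace (X × Y) :=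
  perfectlyNormal_of_cover h.cover

end Pool.Agent.MP_4716e9_gt
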